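import Pool.Agent.Helper89.OS.St2

/-!
# Project OS, module TWB: the case `a ≥ 2`, end
-/

set_option autoImplicit false

namespace Pool.Agent.Helper29.OS

open Matrix ComplexConjugate Pool.Agent.Helper94.YF Pool.Agent.Helper94.YG Pool.Agent.Helper89.OS

private theorem unit_sum {p : ℕ} (hp : p.Prime) [Fintype (ZMod (p ^ 2))ˣ] {θ : ℂ}
    (h1 : θ ^ (p ^ 2) = 1) (h2 : θ ^ p ≠ 1) :
    ∑ w : (ZMod (p ^ 2))ˣ, θ ^ (w : ZMod (p ^ 2)).val = 0 := by
  haveI : NeZero (p ^ 2) := ⟨pow_ne_zero 2 hp.ne_zero⟩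
  have hnil : IsNilpotent ((p : ℕ) : ZMod (p ^ 2)) := ⟨2, by
    have h : ((p ^ 2 : ℕ) : ZMod (p ^ 2)) = 0 := ZMod.natCast_self _
    rwa [Nat.cast_pow] at h⟩
  have hu : ∀ w : (ZMod (p ^ 2))ˣ, IsUnit ((w : ZMod (p ^ 2)) + ((p : ℕ) : ZMod (p ^ 2))) :=
    fun w => hnil.isUnit_add_left_of_commute w.isUnit (Commute.all _ _)
  let g : (ZMod (p ^ 2))ˣ → (ZMod (p ^ 2))ˣ := fun w => (hu w).unit
  have hgv : ∀ w, ((g w : (ZMod (p ^ 2))ˣ) : ZMod (p ^ 2)) =
      (w : ZMod (p ^ 2)) + ((p : ℕ) : ZMod (p ^ 2)) := fun w => (hu w).unit_spec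
  have hinj : Function.Injective g := by
    intro w w' h
    have h3 : ((g w : (ZMod (p ^ 2))ˣ) : ZMod (p ^ 2)) = ((g w' : (ZMod (p ^ 2))ˣ) : ZMod (p ^ 2)) :=
      by rw [h]
    rw [hgv, hgv] at h3
    exact Units.ext (add_right_cancel h3)
  have hbij : Function.Bijective g := Finite.injective_iff_bijective.1 hinj
  have hlt : p < p ^ 2 := by nlinarith [hp.two_le]
  have hstep : ∀ w, θ ^ ((g w : (ZMod (p ^ 2))ˣ) : ZMod (p ^ 2)).val =
      θ ^ (w : ZMod (p ^ 2)).val * θ ^ p := by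
    intro w
    rw [hgv, ZMod.val_add, ZMod.val_natCast, Nat.mod_eq_of_lt hlt, ← pow_eq_pow_mod _ h1, pow_add]
  have hs := hbij.sum_comp (fun w : (ZMod (p ^ 2))ˣ => θ ^ (w : ZMod (p ^ 2)).val)
  simp only [hstep] at hs
  rw [← Finset.sum_mul] at hs
  have h3 : (∑ w : (ZMod (p ^ 2))ˣ, θ ^ (w : ZMod (p ^ 2)).val) * (θ ^ p - 1) = 0 := by
    linear_combination hs
  rcases mul_eq_zero.1 h3 with h | h
  · exact h
  · exact absurd (sub_eq_zero.1 h) h2

private theorem pi_bij {I : Type} [Fintype I] [DecidableEq I] {p a : ℕ} (X : PD I p a)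
    (c : (ZMod (p ^ a))ˣ) : Function.Bijective (X.pi c) := by
  refine Finite.injective_iff_bijective.1 ?_
  intro i i' h
  have h1 : X.pi c⁻¹ (X.pi c i) = X.pi c⁻¹ (X.pi c i') := by rw [h]
  rwa [← X.pi_mul, ← X.pi_mul, inv_mul_cancel, X.pi_one, X.pi_one] at h1

theorem hTWB : StTWB := by
  classical
  intro hTWA hBLK hAMG hRAT hCGR hISO hPID I _ _ p a X ha
  obtain ⟨rfl, hyo, hM1, htp, hEc0⟩ := hTWA I p a X ha
  obtain ⟨Q, hQ⟩ := hPID hRAT p X.prime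
  have hp2 : 2 ≤ p := X.prime.two_le
  have hp3 : 3 ≤ p := by
    rcases hp2.lt_or_eq with h | h
    · omega
    · exact absurd X.p_odd (by rw [← h]; decide)
  have hp0 : (0 : ℝ) < p := by
    have : 0 < p := by omega
    exact_mod_cast this
  have hB : Blk X Q := hBLK hRAT hCGR hISO I p 2 X Q hQ (by
    rw [hyo]
    intro h
    have h1 := Int.le_of_dvd one_pos h
    omega)
  haveI : NeZero (p ^ 2) := ⟨pow_ne_zero 2 X.prime.ne_zero⟩
  obtain ⟨K, hK⟩ : ∃ K : Finset I, ∀ k, k ∈ K ↔ X.y k ≠ 0 ∧ X.t k = 1 :=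
    ⟨Finset.univ.filter fun k => X.y k ≠ 0 ∧ X.t k = 1, fun k => by simp⟩
  obtain ⟨E, hE, hEc⟩ : ∃ E : Finset I, (∀ k, k ∈ E ↔ X.y k ≠ 0 ∧ X.t k ≠ 1) ∧
      p ^ 2 ≤ E.card + p := by
    refine ⟨Finset.univ.filter fun k => X.y k ≠ 0 ∧ X.t k ≠ 1, fun k => by simp, ?_⟩
    convert hEc0
  have hoK : X.o ∈ K := (hK _).2 ⟨by rw [hyo]; exact one_ne_zero, X.t_o⟩
  -- `|K| ≤ p`
  have hKc : (K.card : ℝ) ≤ p := by
    have h1 : ((K.card : ℕ) : ℤ) ≤ p := by
      rw [← hM1]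
      calc ((K.card : ℕ) : ℤ) = ∑ k ∈ K, (1 : ℤ) := by simp
        _ ≤ ∑ k ∈ K, (if X.t k = 1 then X.y k ^ 2 else 0) := by
            refine Finset.sum_le_sum fun k hk => ?_
            obtain ⟨h2, h3⟩ := (hK k).1 hk
            rw [if_pos h3]
            have h4 : 0 < X.y k ^ 2 := by positivity
            omega
        _ ≤ ∑ k, (if X.t k = 1 then X.y k ^ 2 else 0) := by
            refine Finset.sum_le_sum_of_subset_of_nonneg (Finset.subset_univ _) fun k _ _ => ?_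
            split_ifs
            · positivity
            · exact le_rfl
    exact_mod_cast h1
  obtain ⟨j, hjK, hjm⟩ := Finset.exists_max_image K X.d ⟨X.o, hoK⟩
  obtain ⟨hjy, hjt⟩ := (hK j).1 hjK
  -- (i)
  have hT : ∀ w : (ZMod (p ^ 2))ˣ, ∑ k, X.t k ^ (w : ZMod (p ^ 2)).val *
      (X.s j k * (X.d k : ℂ)) = (p : ℂ) * X.d j := by
    intro w
    calc ∑ k, X.t k ^ (w : ZMod (p ^ 2)).val * (X.s j k * (X.d k : ℂ))
        = ∑ k, ∑ i, (X.z i : ℂ) * (X.t k ^ (w : ZMod (p ^ 2)).val * (X.s j k * X.s k i)) := by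
          refine Finset.sum_congr rfl fun k _ => ?_
          rw [← X.sz k, Finset.mul_sum, Finset.mul_sum]
          refine Finset.sum_congr rfl fun i _ => ?_
          ring
      _ = ∑ i, (X.z i : ℂ) * ∑ k, (X.t k ^ (w : ZMod (p ^ 2)).val * (X.s j k * X.s k i)) := by
          rw [Finset.sum_comm]
          exact Finset.sum_congr rfl fun i _ => (Finset.mul_sum _ _ _).symm
      _ = ∑ i, (p : ℂ) * (X.s j (X.pi w⁻¹ i) * (X.z (X.pi w⁻¹ i) : ℂ)) := by
          refine Finset.sum_congr rfl fun i _ => ?_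
          rw [X.weil w j i, hjt, one_pow, X.pi_z]
          by_cases hz : X.z i = 0
          · rw [hz]
            simp
          · rw [X.z_t i hz, one_pow]
            ring
      _ = (p : ℂ) * ∑ i, X.s j i * (X.z i : ℂ) := by
          rw [← Finset.mul_sum]
          congr 1
          exact (pi_bij X w⁻¹).sum_comp (fun i => X.s j i * (X.z i : ℂ))
      _ = (p : ℂ) * X.d j := by rw [X.sz j]
  have hcard : (Fintype.card (ZMod (p ^ 2))ˣ : ℂ) ≠ 0 := by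
    have : Fintype.card (ZMod (p ^ 2))ˣ ≠ 0 := Fintype.card_ne_zero
    exact_mod_cast this
  have hi : ∑ k ∈ K, X.s j k * (X.d k : ℂ) = (p : ℂ) * X.d j := by
    have h1 : ∑ w : (ZMod (p ^ 2))ˣ, ∑ k, X.t k ^ (w : ZMod (p ^ 2)).val *
        (X.s j k * (X.d k : ℂ)) = (Fintype.card (ZMod (p ^ 2))ˣ : ℂ) * ((p : ℂ) * X.d j) := by
      simp only [hT, Finset.sum_const, Finset.card_univ, nsmul_eq_mul]
    have h2 : ∑ w : (ZMod (p ^ 2))ˣ, ∑ k, X.t k ^ (w : ZMod (p ^ 2)).val *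
        (X.s j k * (X.d k : ℂ)) = (Fintype.card (ZMod (p ^ 2))ˣ : ℂ) *
          ∑ k ∈ K, X.s j k * (X.d k : ℂ) := by
      rw [Finset.sum_comm]
      have h3 : ∀ k, ∑ w : (ZMod (p ^ 2))ˣ, X.t k ^ (w : ZMod (p ^ 2)).val *
          (X.s j k * (X.d k : ℂ)) = (Fintype.card (ZMod (p ^ 2))ˣ : ℂ) *
            (if k ∈ K then X.s j k * (X.d k : ℂ) else 0) := by
        intro k
        rw [← Finset.sum_mul]
        by_cases hy : X.y k = 0
        · rw [hB.sup j k hjy hy]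
          simp
        · by_cases ht : X.t k = 1
          · rw [if_pos ((hK k).2 ⟨hy, ht⟩), ht]
            simp
          · rw [unit_sum X.prime (X.t_pow k) (fun h => ht (htp k hy h)),
              if_neg (fun h => ht ((hK k).1 h).2), zero_mul, mul_zero]
      simp only [h3]
      rw [← Finset.mul_sum, Finset.sum_ite_mem, Finset.univ_inter]
    rw [h2] at h1
    exact mul_left_cancel₀ hcard h1
  -- (ii)
  have hnorm : ∑ k, ‖X.s j k‖ ^ 2 = (p : ℝ) ^ 2 := by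
    have h1 := X.s_uni j j
    rw [if_pos rfl] at h1
    have h2 : ((∑ k, ‖X.s j k‖ ^ 2 : ℝ) : ℂ) = (((p : ℝ) ^ 2 : ℝ) : ℂ) := by
      push_cast
      rw [← h1]
      refine Finset.sum_congr rfl fun k _ => ?_
      rw [Complex.mul_conj, Complex.normSq_eq_norm_sq]
      push_cast
      rfl
    exact_mod_cast h2
  have hKE : Disjoint K E := by
    rw [Finset.disjoint_left]
    intro k hk hk'
    exact ((hE k).1 hk').2 ((hK k).1 hk).2
  have hEs : ∀ c, ∀ k ∈ E, X.pi c k ∈ E := by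
    intro c k hk
    obtain ⟨h1, h2⟩ := (hE k).1 hk
    refine (hE _).2 ⟨by rw [X.pi_y]; exact h1, fun h => h2 ?_⟩
    have h3 : X.pi c⁻¹ (X.pi c k) = k := by
      rw [← X.pi_mul, inv_mul_cancel, X.pi_one]
    rw [← h3, X.pi_t, h, one_pow]
  have hamg := hAMG hRAT I p 2 X Q hB j E hjy (fun k hk => ((hE k).1 hk).1) hEs
  have hii : ∑ k ∈ K, ‖X.s j k‖ ^ 2 ≤ p := by
    have h1 : ∑ k ∈ K, ‖X.s j k‖ ^ 2 + ∑ k ∈ E, ‖X.s j k‖ ^ 2 ≤ ∑ k, ‖X.s j k‖ ^ 2 := by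
      rw [← Finset.sum_union hKE]
      exact Finset.sum_le_sum_of_subset_of_nonneg (Finset.subset_univ _)
        fun k _ _ => by positivity
    have h2 : ((p : ℝ) ^ 2) ≤ E.card + p := by exact_mod_cast hEc
    linarith
  -- (iii)
  have hdj : (0 : ℝ) < X.d j := by exact_mod_cast X.d_pos j
  obtain ⟨A, hA⟩ : ∃ A, A = ∑ k ∈ K, ‖X.s j k‖ := ⟨_, rfl⟩
  have hA0 : 0 ≤ A := by
    rw [hA]
    exact Finset.sum_nonneg fun k _ => norm_nonneg _
  have h1 : (p : ℝ) * X.d j ≤ ∑ k ∈ K, ‖X.s j k‖ * X.d k := by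
    have h2 : ‖∑ k ∈ K, X.s j k * (X.d k : ℂ)‖ ≤ ∑ k ∈ K, ‖X.s j k * (X.d k : ℂ)‖ :=
      norm_sum_le _ _
    rw [hi, norm_mul, Complex.norm_natCast, Complex.norm_natCast] at h2
    refine h2.trans (le_of_eq (Finset.sum_congr rfl fun k _ => ?_))
    rw [norm_mul, Complex.norm_natCast]
  have h2 : ∑ k ∈ K, ‖X.s j k‖ * X.d k ≤ X.d j * A := by
    rw [hA, Finset.mul_sum]
    refine Finset.sum_le_sum fun k hk => ?_
    have h3 : (X.d k : ℝ) ≤ X.d j := by exact_mod_cast hjm k hk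
    have h4 := mul_le_mul_of_nonneg_left h3 (norm_nonneg (X.s j k))
    linarith
  have hpA : (p : ℝ) ≤ A := by
    have h3 : (X.d j : ℝ) * p ≤ X.d j * A := by linarith
    exact le_of_mul_le_mul_left h3 hdj
  have hAsq : A ^ 2 ≤ K.card * p := by
    have h3 : A ^ 2 ≤ K.card * ∑ k ∈ K, ‖X.s j k‖ ^ 2 := by
      rw [hA]
      exact sq_sum_le_card_mul_sum_sq
    exact h3.trans (mul_le_mul_of_nonneg_left hii (Nat.cast_nonneg _))
  have hAp : A ≤ p := by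
    have h3 : A ^ 2 ≤ (p : ℝ) ^ 2 := by nlinarith
    exact (sq_le_sq₀ hA0 hp0.le).1 h3
  have hAe : A = p := le_antisymm hAp hpA
  have hKp : (p : ℝ) ≤ K.card := by
    rw [hAe] at hAsq
    have h3 : (p : ℝ) * p ≤ K.card * p := by linarith
    exact le_of_mul_le_mul_right h3 hp0
  have hall : ∀ k ∈ K, X.d k = X.d j := by
    have h3 : ∑ k ∈ K, ‖X.s j k‖ * ((X.d j : ℝ) - X.d k) ≤ 0 := by
      have h4 : ∑ k ∈ K, ‖X.s j k‖ * ((X.d j : ℝ) - X.d k) =
          X.d j * A - ∑ k ∈ K, ‖X.s j k‖ * X.d k := by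
        rw [hA, Finset.mul_sum, ← Finset.sum_sub_distrib]
        exact Finset.sum_congr rfl fun k _ => by ring
      rw [h4, hAe]
      linarith
    have h5 : ∀ k ∈ K, 0 ≤ ‖X.s j k‖ * ((X.d j : ℝ) - X.d k) := by
      intro k hk
      have h6 : (X.d k : ℝ) ≤ X.d j := by exact_mod_cast hjm k hk
      exact mul_nonneg (norm_nonneg _) (by linarith)
    have h7 := (Finset.sum_eq_zero_iff_of_nonneg h5).1 (le_antisymm h3 (Finset.sum_nonneg h5))
    intro k hk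
    have h8 := h7 k hk
    rcases mul_eq_zero.1 h8 with h | h
    · exact absurd (norm_eq_zero.1 h) (hB.nz j k hjy ((hK k).1 hk).1)
    · have h9 : (X.d k : ℝ) = X.d j := by linarith
      exact_mod_cast h9
  have hone : ∀ k ∈ K, X.d k = 1 := by
    intro k hk
    rw [hall k hk, ← hall X.o hoK, X.d_o]
  have hK1 : 1 < K.card := by
    have h3 : p ≤ K.card := by exact_mod_cast hKp
    omega
  obtain ⟨k, hk, hko⟩ := Finset.exists_mem_ne hK1 X.o
  exact ⟨k, hko, hone k hk, X.th_of k ((hK k).1 hk).1 ((hK k).1 hk).2⟩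

end Pool.Agent.Helper29.OS
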